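import Pool.Agent.STP.Main

/-!
# MP_237dd7_lc: the strong tree property at `κ` implies SCH at every singular strong limit cardinal
above `κ` that is not a fixed point of the aleph function

`Pool.Agent.STP.StrongTP κ` is the strong tree property: for every cardinal `l ≥ κ` every thin
`P_κ l`-list has a cofinal branch.

Sketch.  Let `μ = ℵ_δ`, `δ < μ`, `χ = max |δ| κ`, `ν₀ = 2 ^ χ < μ`.  By induction on the limit
cardinals `ν ∈ (ν₀, μ]` the product of all regular cardinals in `(ν₀, ν)` modulo bounded sets has a
scale of length `ν⁺`: the characteristic functions `s_γ` (`γ < ν⁺`) of suitable hulls have an exact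
upper bound `δ`; the set of regular `q` with `δ(q) = q` is unbounded; below a successor of a
singular cardinal `δ` is full by the induction hypothesis; a pair `q = d⁺`, `q' = d⁺⁺` with
`δ(q) < q`, `δ(q') = q'` for cofinally many `d` is impossible by the strong tree property, because
the hulls have fewer than `κ` traces on small sets.  The scale at `μ` bounds the number of subsets
of `μ` of size `χ` by `μ⁺`.
-/

open Cardinal

namespace Pool.Agent.Results.MP_237dd7_lc.NonFixedPoints

/-- If the regular uncountable cardinal `κ` has the strong tree property, then `2 ^ μ = μ⁺` for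
every singular strong limit cardinal `μ > κ` with `ℵ_μ ≠ μ`. -/
theorem result (κ : Cardinal.{0}) (hκ : κ.IsRegular) (hunc : ℵ₀ < κ)
    (hTP : Pool.Agent.STP.StrongTP κ) (μ : Cardinal.{0}) (hκμ : κ < μ) (_hsing : μ.IsSingular)
    (hμ : μ.IsStrongLimit) (hfix : ℵ_ μ.ord ≠ μ) : (2 : Cardinal.{0}) ^ μ = Order.succ μ :=
  Pool.Agent.STP.main hκ hunc hTP hκμ hμ hfix

end Pool.Agent.Results.MP_237dd7_lc.NonFixedPoints
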