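import Pool.Agent.STW.Main

/-!
# MP_237dd7_lc: the strong tree property at a weakly inaccessible cardinal `κ` implies SCH above `κ`

`Pool.Agent.STP.StrongTP κ` is the strong tree property: for every cardinal `l ≥ κ` every thin
`P_κ l`-list has a cofinal branch.

Sketch.  Fix `χ ≥ κ`, `ν₀ = 2 ^ χ`, and let `λ` be the least `τ ≥ ν₀` with `τ ^ χ > τ⁺`.  By the
argument of Silver `cof λ = ω`.  At every singular `τ ∈ (ν₀, λ)` of cofinality `< κ` there is a
scale `(F ξ)`, `τ ≤ ξ < τ⁺`, on all regular cardinals between `κ` and `τ`, universal for small
partial functions and obedient at cofinalities below `κ`.  Sets of ordinals that contain `ν₀` and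
are closed under these scales, small suprema, minimal bounds of small partial functions, and fixed
bijections and ladders have fewer than `κ` traces on every set of fewer than `κ` ordinals below
`λ`; here club guessing (no bad points of cofinality `κ`) and the hypothesis that `κ` is a limit
cardinal are used.  So the hulls of size `d` (`d < λ`) of the ordinals `γ < λ⁺` give thin lists; the
branches are scales of length `λ⁺` in all products of regular cardinals tending to `λ`, uniformly,
and a second system of hulls closed under these scales covers all countable subsets of `λ`.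
(`Pool.Agent.STW.main_pow`: `τ ^ χ ≤ τ⁺` for all `χ ≥ κ` and `τ ≥ 2 ^ χ`.)
-/

open Cardinal

namespace Pool.Agent.Results.MP_237dd7_lc.WeaklyInaccessible

/-- If `κ` is weakly inaccessible (regular, uncountable, a limit cardinal) and has the strong tree
property, then `2 ^ μ = μ⁺` for every singular strong limit cardinal `μ > κ`. -/
theorem result (κ : Cardinal.{0}) (hκ : κ.IsRegular) (hunc : ℵ₀ < κ)
    (hlim : ∀ c < κ, Order.succ c < κ) (hTP : Pool.Agent.STP.StrongTP κ) (μ : Cardinal.{0})
    (hκμ : κ < μ) (hsing : μ.IsSingular) (hμ : μ.IsStrongLimit) :
    (2 : Cardinal.{0}) ^ μ = Order.succ μ :=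
  Pool.Agent.STW.main hκ hunc hlim hTP hκμ hsing hμ

end Pool.Agent.Results.MP_237dd7_lc.WeaklyInaccessible
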